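import Pool.Agent.Y602.FP.Const

set_option autoImplicit false

/-!
# Free pro-`p` groups: hereditary undecidability, and non-arithmeticity with two constants

Ershov's question. Let `F` be a free pro-`p` group with two different elements `ι a`, `ι b` of a
basis. By Helper948 the set of the powers `(ι b) ^ n` and the multiplication of the exponents are
definable from `ι a`, `ι b`, by formulas `NatR p x y u`, `MulR p x y u v w`. Here:

* the sentences (for all `x`, `y`: if `x`, `y` satisfy the four axioms (`1` is a number, `u y` is a
  number for each number `u`, `a * 0 = 0`, `a * (b + 1) = a * b + a`) then the system of equations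
  for `S` is solvable with first coordinate `y ^ n`) are true in *every* group for `n ∈ S`, because
  the standard solution consists of powers of `y`; and false in `F` for `n ∉ S`. So each set of
  sentences between the theory of all groups and the theory of `F` is undecidable (the theory of
  `F` is hereditarily undecidable), and each r.e. set is many-one reducible to it;
* with constants for `ι a`, `ι b` the standard model of arithmetic is interpreted, by the same
  formulas for all `F`, so each arithmetical set is many-one reducible to the theory of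
  `(F, ι a, ι b)`, which is therefore not arithmetical.
-/

namespace Pool.Agent.Results.MP_c4850b_lc.HereditarilyUndecidable

open FirstOrder Pool.Agent.Helper948.ProP Pool.Agent.Y602.FP
open Pool.Agent.Y669.TA (Arithmetical)

/-- The set of the Gödel numbers of the members of a set of sentences. -/
def codes (T : Set LGrp.Sentence) : ℕ → Prop := fun m => ∃ φ ∈ T, code φ = m

/-- The set of the Gödel numbers of the formulas `φ(x, y)` of the language of groups which hold in
`F` for the two given elements (the theory of `F` with two constants). -/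
def codes₂ (F : Type) [Group F] (x y : F) : ℕ → Prop := fun m =>
  ∃ φ : LGrp.BoundedFormula Empty 2, code φ = m ∧ φ.Realize (fun e : Empty => e.elim) ![x, y]

theorem reduce (T : Set LGrp.Sentence) {S : ℕ → Prop} {σ : ℕ → LGrp.Sentence}
    (hσ : Computable (fun n => code (σ n))) (h : ∀ n, S n ↔ σ n ∈ T) : S ≤₀ codes T := by
  refine ⟨fun n => code (σ n), hσ, fun n => ?_⟩
  rw [h n]
  constructor
  · intro hh
    exact ⟨σ n, hh, rfl⟩
  · rintro ⟨ψ, hh, hψ⟩
    rwa [← F4b.code_injective _ _ hψ]

theorem not_co_re {T : ℕ → Prop} (h : HaltS ≤₀ T) : ¬ REPred (fun m => ¬ T m) := by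
  intro hT
  obtain ⟨f, hf, hfT⟩ := h
  apply haltS_not_computable
  rw [ComputablePred.computable_iff_re_compl_re']
  refine ⟨haltS_re, ?_⟩
  have h1 : REPred (fun n => ¬ T (f n)) := Partrec.comp hT hf
  have h2 : (fun n => ¬ HaltS n) = fun n => ¬ T (f n) := funext fun n => by rw [hfT n]
  rw [h2]
  exact h1

/-- **Free pro-`p` groups of rank at least two.** Let `p` be a prime.
(1) For each r.e. set `S` there is a computable sequence of sentences `σ n` such that for `n ∈ S`
the sentence `σ n` is true in all groups, and for `n ∉ S` it is false in every free pro-`p` group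
whose basis has two different elements (`X`; the rank may be infinite).
(2) Let `F` be such a group and `T` a set of sentences true in `F` which contains the sentences
true in all groups (for example `T` is the theory of `F`, or the theory of a class of groups one of
whose members is `F`). Then every r.e. set is many-one reducible to `T`, no algorithm decides `T`,
and the complement of `T` is not r.e.
(3) For each arithmetical set `A` of natural numbers there is a computable sequence of formulas
`Ψ n` with two free variables such that, for all free pro-`p` groups and all pairs of different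
elements `ι a`, `ι b` of a basis, `Ψ n` holds for them iff `n ∈ A`.
(4) So every arithmetical set is many-one reducible to the theory of `(F, ι a, ι b)`, and this
theory is not arithmetical.
(5) Free pro-`p` groups exist on every set, and (6) the Gödel numberings are injective. -/
theorem result :
    (∀ (p : ℕ), p.Prime →
      (∀ S : ℕ → Prop, REPred S → ∃ σ : ℕ → LGrp.Sentence, Computable (fun n => code (σ n)) ∧
        (∀ n, S n → ∀ (G : Type) [Group G], G ⊨ σ n) ∧
        ∀ n, ¬ S n → ∀ (X F : Type) [Group F] [TopologicalSpace F] (ι : X → F),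
          IsFreeProP p ι → (∃ a b : X, a ≠ b) → ¬ F ⊨ σ n) ∧
      (∀ (X F : Type) [Group F] [TopologicalSpace F] (ι : X → F), IsFreeProP p ι →
        (∃ a b : X, a ≠ b) → ∀ T : Set LGrp.Sentence,
          (∀ φ : LGrp.Sentence, (∀ (G : Type) [Group G], G ⊨ φ) → φ ∈ T) →
          (∀ φ ∈ T, F ⊨ φ) →
          (∀ S : ℕ → Prop, REPred S → S ≤₀ codes T) ∧
          (¬ ∃ f : ℕ → Bool, Computable f ∧ ∀ φ : LGrp.Sentence, f (code φ) = true ↔ φ ∈ T) ∧
          ¬ REPred (fun m => ¬ codes T m)) ∧
      (∀ A : ℕ → Prop, Arithmetical A →
        ∃ Ψ : ℕ → LGrp.BoundedFormula Empty 2, Computable (fun n => code (Ψ n)) ∧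
          ∀ (X F : Type) [Group F] [TopologicalSpace F] (ι : X → F), IsFreeProP p ι →
            ∀ a b : X, a ≠ b → ∀ n : ℕ,
              (Ψ n).Realize (fun e : Empty => e.elim) ![ι a, ι b] ↔ A n) ∧
      (∀ (X F : Type) [Group F] [TopologicalSpace F] (ι : X → F), IsFreeProP p ι →
        ∀ a b : X, a ≠ b →
          (∀ A : ℕ → Prop, Arithmetical A → A ≤₀ codes₂ F (ι a) (ι b)) ∧
          ¬ Arithmetical (codes₂ F (ι a) (ι b)))) ∧
    (∀ (p : ℕ), p.Prime → ∀ X : Type,
      ∃ (F : Type) (_ : Group F) (_ : TopologicalSpace F) (ι : X → F), IsFreeProP p ι) ∧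
    (∀ k : ℕ, ∀ φ ψ : LGrp.BoundedFormula Empty k, code φ = code ψ → φ = ψ) := by
  refine ⟨fun p hp => ?_, fun p hp X => ?_, fun k φ ψ h => F4b.code_injective φ ψ h⟩
  · have h1 : ∀ S : ℕ → Prop, REPred S → ∃ σ : ℕ → LGrp.Sentence,
        Computable (fun n => code (σ n)) ∧
        (∀ n, S n → ∀ (G : Type) [Group G], G ⊨ σ n) ∧
        ∀ n, ¬ S n → ∀ (X F : Type) [Group F] [TopologicalSpace F] (ι : X → F),
          IsFreeProP p ι → (∃ a b : X, a ≠ b) → ¬ F ⊨ σ n := by
      intro S hS
      obtain ⟨σ, h1, h2, h3⟩ := exists_sentences p hS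
      exact ⟨σ, h1, h2, fun n hn => h3 n hn hp⟩
    refine ⟨h1, ?_, fun A hA => exists_formulas p hp hA, ?_⟩
    · intro X F _ _ ι hι hab T hT1 hT2
      have hred : ∀ S : ℕ → Prop, REPred S → ∃ σ : ℕ → LGrp.Sentence,
          Computable (fun n => code (σ n)) ∧ ∀ n, S n ↔ σ n ∈ T := by
        intro S hS
        obtain ⟨σ, hσ, h2, h3⟩ := h1 S hS
        refine ⟨σ, hσ, fun n => ⟨fun hn => hT1 _ (h2 n hn), fun hn => ?_⟩⟩
        by_contra hc
        exact h3 n hc X F ι hι hab (hT2 _ hn)
      refine ⟨fun S hS => ?_, ?_, ?_⟩
      · obtain ⟨σ, hσ, h2⟩ := hred S hS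
        exact reduce T hσ h2
      · rintro ⟨f, hf, hfT⟩
        obtain ⟨σ, hσ, h2⟩ := hred HaltS haltS_re
        apply haltS_not_computable
        refine ComputablePred.computable_iff.2 ⟨fun n => f (code (σ n)), hf.comp hσ, ?_⟩
        funext n
        apply propext
        rw [h2 n]
        exact (hfT _).symm
      · obtain ⟨σ, hσ, h2⟩ := hred HaltS haltS_re
        exact not_co_re (reduce T hσ h2)
    · intro X F _ _ ι hι a b hab
      have h2 : ∀ A : ℕ → Prop, Arithmetical A → A ≤₀ codes₂ F (ι a) (ι b) := by
        intro A hA
        obtain ⟨Ψ, hΨ, h3⟩ := exists_formulas p hp hA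
        refine ⟨fun n => code (Ψ n), hΨ, fun n => ?_⟩
        rw [← h3 X F ι hι a b hab n]
        constructor
        · intro hh
          exact ⟨Ψ n, rfl, hh⟩
        · rintro ⟨ψ, hψ, hh⟩
          rwa [← F4b.code_injective _ _ hψ]
      exact ⟨h2, Pool.Agent.Y669.TA.not_arithmetical h2⟩
  · haveI : Fact p.Prime := ⟨hp⟩
    exact Ex.exists_isFreeProP p X

end Pool.Agent.Results.MP_c4850b_lc.HereditarilyUndecidable
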